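import Mathlib

/-!
Convex bodies adapted to a family of linear maps of small rank, and their volumes.
-/

open MeasureTheory Module

namespace Pool.Agent.R117.HS

/-- the volume of the unit ball of dimension `r` -/
noncomputable def om (r : ℕ) : ℝ := √Real.pi ^ r / Real.Gamma ((r : ℝ) / 2 + 1)

theorem gamma_pos (r : ℕ) : 0 < Real.Gamma ((r : ℝ) / 2 + 1) :=
  Real.Gamma_pos_of_pos (by positivity)

theorem om_pos (r : ℕ) : 0 < om r := by
  have := gamma_pos r
  have := Real.pi_pos
  unfold om
  positivity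

theorem om_zero : om 0 = 1 := by
  simp [om]

/-- the volume radius of the unit ball of dimension `d` -/
noncomputable def vr (d : ℕ) : ℝ := om d ^ ((1 : ℝ) / d)

theorem vr_pos (d : ℕ) : 0 < vr d := Real.rpow_pos_of_pos (om_pos d) _

theorem gamma_le {r d : ℕ} (hd : 0 < d) (h : r ≤ d) :
    Real.Gamma ((r : ℝ) / 2 + 1) ≤ Real.Gamma ((d : ℝ) / 2 + 1) ^ ((r : ℝ) / d) := by
  have hd' : (0 : ℝ) < d := by exact_mod_cast hd
  have hr' : (r : ℝ) ≤ d := by exact_mod_cast h
  have hr0 : (0 : ℝ) ≤ r := by positivity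
  have hm1 : (1 : ℝ) ∈ Set.Ioi (0 : ℝ) := by simp
  have hm2 : (d : ℝ) / 2 + 1 ∈ Set.Ioi (0 : ℝ) := by
    simp only [Set.mem_Ioi]
    positivity
  have ha : (0 : ℝ) ≤ 1 - r / d := by
    rw [sub_nonneg, div_le_one hd']
    exact hr'
  have hb : (0 : ℝ) ≤ r / d := by positivity
  have hab : (1 - (r : ℝ) / d) + r / d = 1 := by ring
  have h1 := Real.convexOn_log_Gamma.2 hm1 hm2 ha hb hab
  simp only [Function.comp_apply, smul_eq_mul, Real.Gamma_one, Real.log_one, mul_zero, zero_add]
    at h1
  have e : (1 - (r : ℝ) / d) * 1 + r / d * (d / 2 + 1) = r / 2 + 1 := by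
    field_simp
    ring
  rw [e, ← Real.log_rpow (gamma_pos d)] at h1
  exact (Real.log_le_log_iff (gamma_pos r) (Real.rpow_pos_of_pos (gamma_pos d) _)).1 h1

theorem vr_pow_le {r d : ℕ} (hd : 0 < d) (h : r ≤ d) : vr d ^ r ≤ om r := by
  have hd' : (0 : ℝ) < d := by exact_mod_cast hd
  have hpi : 0 ≤ √Real.pi := Real.sqrt_nonneg _
  have e : vr d ^ r = √Real.pi ^ r / Real.Gamma ((d : ℝ) / 2 + 1) ^ ((r : ℝ) / d) := by
    unfold vr om
    rw [← Real.rpow_natCast, ← Real.rpow_mul (by have := gamma_pos d; positivity),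
      Real.div_rpow (by positivity) (gamma_pos d).le, ← Real.rpow_natCast,
      ← Real.rpow_mul hpi]
    have e1 : (d : ℝ) * (1 / d * r) = r := by field_simp
    have e2 : (1 / (d : ℝ) * r) = r / d := by ring
    rw [e1, e2, Real.rpow_natCast]
  rw [e]
  exact div_le_div_of_nonneg_left (by positivity) (gamma_pos r) (gamma_le hd h)

theorem volume_ball_eq (F : Type) [NormedAddCommGroup F] [InnerProductSpace ℝ F]
    [FiniteDimensional ℝ F] [MeasurableSpace F] [BorelSpace F] {ρ : ℝ} (hρ : 0 < ρ) :
    volume (Metric.ball (0 : F) ρ) = ENNReal.ofReal (om (finrank ℝ F) * ρ ^ finrank ℝ F) := by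
  rcases subsingleton_or_nontrivial F with h | h
  · have h0 : finrank ℝ F = 0 := finrank_zero_of_subsingleton
    have hu : Metric.ball (0 : F) ρ = Set.univ := by
      ext x
      simp [Subsingleton.elim x 0, hρ]
    have h1 := ((stdOrthonormalBasis ℝ F).measurePreserving_repr_symm).measure_preimage
      (s := Set.univ) MeasurableSet.univ.nullMeasurableSet
    rw [hu, ← h1, Set.preimage_univ, h0, om_zero]
    have hem : IsEmpty (Fin (finrank ℝ F)) := by rw [h0]; infer_instance
    rw [volume_euclideanSpace_eq_dirac]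
    simp
  · rw [InnerProductSpace.volume_ball, ← ENNReal.ofReal_pow hρ.le,
      ← ENNReal.ofReal_mul (by positivity)]
    congr 1
    unfold om
    ring

/-- The convex body adapted to a family of linear maps. -/
theorem exists_body {c μ : ℝ} (hc : 0 < c) (hμ : 0 < μ) {d : ℕ} (hd : 0 < d)
    (G : Type) [NormedAddCommGroup G] [InnerProductSpace ℝ G] (k : ℕ) :
    ∀ (F : Type) [NormedAddCommGroup F] [InnerProductSpace ℝ F]
    [FiniteDimensional ℝ F] [MeasurableSpace F] [BorelSpace F]
    (φ : Fin k → F →ₗ[ℝ] G), (∀ i x, ‖φ i x‖ ≤ c * ‖x‖) →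
    (∀ i, finrank ℝ (LinearMap.range (φ i)) ≤ d) →
    ∀ w m : ℕ, finrank ℝ F = w + m →
      finrank ℝ (⨅ i, LinearMap.ker (φ i) : Submodule ℝ F) = m →
    ∃ D : Set F, (∀ x ∈ D, -x ∈ D) ∧ Convex ℝ D ∧ MeasurableSet D ∧
      ENNReal.ofReal ((vr d * (μ / c)) ^ w * (om m * μ ^ m)) ≤ volume D ∧
      ∀ x ∈ D, (∀ i, φ i x = 0 ∨ μ ≤ ‖φ i x‖) → (x ≠ 0 → μ ≤ ‖x‖) → x = 0 := by
  induction k with
  | zero =>
    intro F _ _ _ _ _ φ _ _ w m hwm hm
    have hinf : (⨅ i, LinearMap.ker (φ i) : Submodule ℝ F) = ⊤ := by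
      rw [iInf_eq_top]
      exact fun i => i.elim0
    rw [hinf, finrank_top] at hm
    have hw : w = 0 := by omega
    refine ⟨Metric.ball 0 μ, ?_, convex_ball _ _, measurableSet_ball, ?_, ?_⟩
    · intro x hx
      simpa using hx
    · rw [volume_ball_eq F hμ, hw, pow_zero, one_mul, hm]
    · intro x hx _ h
      by_contra hne
      have h1 := h hne
      rw [Metric.mem_ball, dist_zero_right] at hx
      linarith
  | succ k ih =>
    intro F _ _ _ _ _ φ hφ hr w m hwm hm
    set K : Submodule ℝ F := LinearMap.ker (φ 0) with hK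
    set φ' : Fin k → K →ₗ[ℝ] G := fun j => (φ j.succ).comp K.subtype with hφ'
    have hmap : ((⨅ j, LinearMap.ker (φ' j) : Submodule ℝ K).map K.subtype) =
        (⨅ i, LinearMap.ker (φ i) : Submodule ℝ F) := by
      ext x
      simp only [Submodule.mem_map, Submodule.mem_iInf, LinearMap.mem_ker, Submodule.coe_subtype]
      constructor
      · rintro ⟨y, hy, rfl⟩ i
        refine Fin.cases ?_ (fun j => ?_) i
        · exact y.2
        · exact hy j
      · intro h
        exact ⟨⟨x, h 0⟩, fun j => h j.succ, rfl⟩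
    have hmK : finrank ℝ (⨅ j, LinearMap.ker (φ' j) : Submodule ℝ K) = m := by
      rw [← hm, ← hmap]
      exact (Submodule.finrank_map_subtype_eq K _).symm
    have hmK' : m ≤ finrank ℝ K := by
      rw [← hmK]
      exact Submodule.finrank_le _
    have hsum : finrank ℝ K + finrank ℝ (Kᗮ : Submodule ℝ F) = finrank ℝ F :=
      K.finrank_add_finrank_orthogonal
    have hrk : finrank ℝ (Kᗮ : Submodule ℝ F) ≤ d := by
      have h1 := LinearMap.finrank_range_add_finrank_ker (φ 0)
      rw [← hK] at h1
      have h2 := hr 0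
      omega
    obtain ⟨w', hw'⟩ : ∃ w', finrank ℝ K = w' + m := ⟨finrank ℝ K - m, by omega⟩
    obtain ⟨D, hD1, hD2, hD3, hD4, hD5⟩ := ih K φ' (fun j x => hφ j.succ x)
      (fun j => le_trans (Submodule.finrank_mono (LinearMap.range_comp_le_range _ _))
        (hr j.succ)) w' m hw' hmK
    set T : F → K × (Kᗮ : Submodule ℝ F) := fun x =>
      (K.orthogonalProjectionOnto x, Kᗮ.orthogonalProjectionOnto x) with hT
    have hTm : MeasurePreserving T volume volume := by
      have h1 := (WithLp.volume_preserving_ofLp K (Kᗮ : Submodule ℝ F)).comp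
        K.orthogonalDecomposition.measurePreserving
      have h2 : (WithLp.ofLp ∘ (K.orthogonalDecomposition : F → _)) = T := by
        funext x
        simp [hT]
      rw [h2] at h1
      exact h1
    have hρ : 0 < μ / c := by positivity
    refine ⟨T ⁻¹' (D ×ˢ Metric.ball 0 (μ / c)), ?_, ?_, ?_, ?_, ?_⟩
    · rintro x ⟨h1, h2⟩
      refine ⟨?_, ?_⟩
      · show K.orthogonalProjectionOnto (-x) ∈ D
        rw [map_neg]
        exact hD1 _ h1
      · show Kᗮ.orthogonalProjectionOnto (-x) ∈ _
        rw [map_neg, Metric.mem_ball, dist_zero_right, norm_neg]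
        have h3 : Kᗮ.orthogonalProjectionOnto x ∈
            Metric.ball (0 : (Kᗮ : Submodule ℝ F)) (μ / c) := h2
        rw [Metric.mem_ball, dist_zero_right] at h3
        exact h3
    · have hlin : T = ((K.orthogonalProjectionOnto.prod Kᗮ.orthogonalProjectionOnto :
          F →L[ℝ] K × (Kᗮ : Submodule ℝ F)) : F → _) := by
        funext x
        rfl
      rw [hlin]
      exact (hD2.prod (convex_ball _ _)).linear_preimage
        ((K.orthogonalProjectionOnto.prod Kᗮ.orthogonalProjectionOnto :
          F →L[ℝ] K × (Kᗮ : Submodule ℝ F)) : F →ₗ[ℝ] K × (Kᗮ : Submodule ℝ F))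
    · exact hTm.measurable (hD3.prod measurableSet_ball)
    · rw [hTm.measure_preimage (hD3.prod measurableSet_ball).nullMeasurableSet,
        Measure.volume_eq_prod, Measure.prod_prod, volume_ball_eq _ hρ]
      refine le_trans ?_ (mul_le_mul' hD4 le_rfl)
      rw [← ENNReal.ofReal_mul (by have := vr_pos d; have := om_pos m; positivity)]
      apply ENNReal.ofReal_le_ofReal
      set r := finrank ℝ (Kᗮ : Submodule ℝ F) with hrdef
      have hw : w = w' + r := by omega
      rw [hw, pow_add, mul_pow _ _ r]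
      have h1 : vr d ^ r ≤ om r := vr_pow_le hd hrk
      have h2 := vr_pos d
      have h3 := om_pos m
      calc (vr d * (μ / c)) ^ w' * (vr d ^ r * (μ / c) ^ r) * (om m * μ ^ m)
          = ((vr d * (μ / c)) ^ w' * (om m * μ ^ m)) * (vr d ^ r * (μ / c) ^ r) := by ring
        _ ≤ ((vr d * (μ / c)) ^ w' * (om m * μ ^ m)) * (om r * (μ / c) ^ r) := by
            apply mul_le_mul_of_nonneg_left _ (by positivity)
            exact mul_le_mul_of_nonneg_right h1 (by positivity)
    · rintro x ⟨hx1, hx2⟩ hx3 hx4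
      have hxK : x ∈ K := by
        rw [hK, LinearMap.mem_ker]
        rcases hx3 0 with h | h
        · exact h
        · exfalso
          have hv : ‖(Kᗮ.orthogonalProjectionOnto x : F)‖ < μ / c := by
            have : Kᗮ.orthogonalProjectionOnto x ∈ Metric.ball (0 : (Kᗮ : Submodule ℝ F)) (μ / c) :=
              hx2
            rw [Metric.mem_ball, dist_zero_right] at this
            exact this
          have hdec : x = (K.orthogonalProjectionOnto x : F) + (Kᗮ.orthogonalProjectionOnto x : F) := by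
            have := K.orthogonalDecomposition.symm_apply_apply x
            rw [Submodule.orthogonalDecomposition_apply] at this
            simpa using this.symm
          have hk0 : φ 0 (K.orthogonalProjectionOnto x : F) = 0 :=
            (K.orthogonalProjectionOnto x).2
          have h5 : φ 0 x = φ 0 (Kᗮ.orthogonalProjectionOnto x : F) := by
            conv_lhs => rw [hdec]
            rw [map_add, hk0, zero_add]
          have h6 := hφ 0 (Kᗮ.orthogonalProjectionOnto x : F)
          rw [← h5] at h6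
          have h7 : c * ‖(Kᗮ.orthogonalProjectionOnto x : F)‖ < c * (μ / c) :=
            mul_lt_mul_of_pos_left hv hc
          have h8 : c * (μ / c) = μ := by field_simp
          linarith
      have hx : K.orthogonalProjectionOnto x = ⟨x, hxK⟩ :=
        Submodule.orthogonalProjectionOnto_mem_subspace_eq_self (⟨x, hxK⟩ : K)
      have h9 := hD5 ⟨x, hxK⟩ (by rw [← hx]; exact hx1) (fun j => hx3 j.succ)
        (fun hne => hx4 (fun h0 => hne (Subtype.ext h0)))
      exact congrArg Subtype.val h9

end Pool.Agent.R117.HS
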