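import Pool.Agent.R117.HS.Body

/-!
Counting separated sets whose images under linear maps of small rank are separated too.
-/

open MeasureTheory Module

namespace Pool.Agent.R117.HS

/-- the volumetric bound for separated sets in a ball -/
theorem packing {V : Type} [NormedAddCommGroup V] [InnerProductSpace ℝ V] [FiniteDimensional ℝ V]
    {R δ : ℝ} (hR : 0 ≤ R) (hδ : 0 < δ) (s : Finset V) (hs : ∀ x ∈ s, ‖x‖ ≤ R)
    (hsep : ∀ x ∈ s, ∀ y ∈ s, x ≠ y → δ ≤ ‖x - y‖) :
    (s.card : ℝ) ≤ (1 + 2 * R / δ) ^ finrank ℝ V := by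
  let _ : MeasurableSpace V := borel V
  have _ : BorelSpace V := ⟨rfl⟩
  set r := finrank ℝ V with hr
  have hdisj : Set.PairwiseDisjoint (s : Set V) (fun x => Metric.ball x (δ / 2)) := by
    intro x hx y hy hxy
    apply Metric.ball_disjoint_ball
    rw [dist_eq_norm]
    have := hsep x hx y hy hxy
    linarith
  have hsub : (⋃ x ∈ s, Metric.ball x (δ / 2)) ⊆ Metric.ball (0 : V) (R + δ / 2) := by
    intro z hz
    simp only [Set.mem_iUnion, exists_prop] at hz
    obtain ⟨x, hx, hz⟩ := hz
    rw [Metric.mem_ball, dist_eq_norm] at hz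
    rw [Metric.mem_ball, dist_zero_right]
    calc ‖z‖ = ‖(z - x) + x‖ := by rw [sub_add_cancel]
      _ ≤ ‖z - x‖ + ‖x‖ := norm_add_le _ _
      _ < δ / 2 + R := by have := hs x hx; linarith
      _ = _ := add_comm _ _
  have h1 := measure_mono (μ := (volume : Measure V)) hsub
  rw [measure_biUnion_finset hdisj (fun x _ => measurableSet_ball)] at h1
  have h2 : ∀ x ∈ s, volume (Metric.ball x (δ / 2)) =
      ENNReal.ofReal (om r * (δ / 2) ^ r) := by
    intro x _
    rw [Measure.addHaar_ball_center, volume_ball_eq V (by positivity)]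
  rw [Finset.sum_congr rfl h2, Finset.sum_const, nsmul_eq_mul,
    volume_ball_eq V (by positivity), ← ENNReal.ofReal_natCast, ← ENNReal.ofReal_mul
      (Nat.cast_nonneg _), ENNReal.ofReal_le_ofReal_iff (by have := om_pos r; positivity)] at h1
  have ho := om_pos r
  have h3 : (s.card : ℝ) * (δ / 2) ^ r ≤ (R + δ / 2) ^ r := by
    have : om r * ((s.card : ℝ) * (δ / 2) ^ r) ≤ om r * (R + δ / 2) ^ r := by linarith
    exact le_of_mul_le_mul_left this ho
  have h4 : (1 + 2 * R / δ) ^ r = (R + δ / 2) ^ r / (δ / 2) ^ r := by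
    rw [← div_pow]
    congr 1
    field_simp
    ring
  rw [h4, le_div_iff₀ (by positivity)]
  exact h3

/-- the bounds which the recursion gives -/
theorem rec_ineq (w a q : ℕ) :
    (1 + w * a) ^ (q + 1) + a * (1 + w * a) ^ q ≤ (1 + (w + 1) * a) ^ (q + 1) := by
  have h1 : (1 + w * a) ^ q ≤ (1 + (w + 1) * a) ^ q :=
    Nat.pow_le_pow_left (by nlinarith) q
  calc (1 + w * a) ^ (q + 1) + a * (1 + w * a) ^ q = (1 + w * a) ^ q * (1 + (w + 1) * a) := by ring
    _ ≤ (1 + (w + 1) * a) ^ q * (1 + (w + 1) * a) := Nat.mul_le_mul_right _ h1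
    _ = _ := (pow_succ _ _).symm

/-- The number of points of a separated set in a ball whose images under some linear maps of small
rank and norm are separated too. -/
theorem count {c : ℝ} (hc : 0 < c) {T : ℝ} (hT : 0 ≤ T) {d a : ℕ}
    (ha : (1 + 2 * c * T) ^ d ≤ (a : ℝ))
    (G : Type) [NormedAddCommGroup G] [InnerProductSpace ℝ G] {m N : ℕ}
    (hN : ∀ Y : Finset (EuclideanSpace ℝ (Fin m)), (∀ y ∈ Y, ‖y‖ ≤ T) →
      (∀ y ∈ Y, ∀ y' ∈ Y, y ≠ y' → 1 ≤ ‖y - y'‖) → Y.card ≤ N) (k : ℕ) :
    ∀ (F : Type) [NormedAddCommGroup F] [InnerProductSpace ℝ F] [FiniteDimensional ℝ F]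
    (φ : Fin k → F →ₗ[ℝ] G), (∀ i x, ‖φ i x‖ ≤ c * ‖x‖) →
    (∀ i, finrank ℝ (LinearMap.range (φ i)) ≤ d) →
    ∀ w : ℕ, finrank ℝ F = w + m →
      finrank ℝ (⨅ i, LinearMap.ker (φ i) : Submodule ℝ F) = m →
    ∀ (q : ℕ) (t : ℝ), t ≤ T ^ 2 → 4 * c ^ 2 * t < q + 1 →
    ∀ X : Finset F, (∀ x ∈ X, ‖x‖ ^ 2 ≤ t) →
      (∀ x ∈ X, ∀ y ∈ X, x ≠ y → 1 ≤ ‖x - y‖ ∧ ∀ i, φ i (x - y) = 0 ∨ 1 ≤ ‖φ i (x - y)‖) →
      X.card ≤ (1 + w * a) ^ q * N := by
  classical
  induction k with
  | zero =>
    intro F _ _ _ φ _ _ w hwm hm q t ht hq X hX hsep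
    have hinf : (⨅ i, LinearMap.ker (φ i) : Submodule ℝ F) = ⊤ := by
      rw [iInf_eq_top]
      exact fun i => i.elim0
    rw [hinf, finrank_top] at hm
    have hw : w = 0 := by omega
    set b := (stdOrthonormalBasis ℝ F).reindex (finCongr hm) with hb
    have hinj : Function.Injective b.repr := b.repr.injective
    have h1 := hN (X.image b.repr)
      (by
        intro y hy
        obtain ⟨x, hx, rfl⟩ := Finset.mem_image.1 hy
        rw [b.repr.norm_map]
        exact (pow_le_pow_iff_left₀ (norm_nonneg _) hT two_ne_zero).1 ((hX x hx).trans ht))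
      (by
        intro y hy y' hy' hne
        obtain ⟨x, hx, rfl⟩ := Finset.mem_image.1 hy
        obtain ⟨x', hx', rfl⟩ := Finset.mem_image.1 hy'
        rw [← map_sub, b.repr.norm_map]
        exact (hsep x hx x' hx' (fun h => hne (by rw [h]))).1)
    rw [Finset.card_image_of_injective _ hinj] at h1
    rw [hw]
    simpa using h1
  | succ k ih =>
    intro F _ _ _ φ hφ hr w hwm hm q t ht hq X hX hsep
    set K : Submodule ℝ F := LinearMap.ker (φ 0) with hK
    set φ' : Fin k → K →ₗ[ℝ] G := fun j => (φ j.succ).comp K.subtype with hφ'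
    have hmap : ((⨅ j, LinearMap.ker (φ' j) : Submodule ℝ K).map K.subtype) =
        (⨅ i, LinearMap.ker (φ i) : Submodule ℝ F) := by
      ext x
      simp only [Submodule.mem_map, Submodule.mem_iInf, LinearMap.mem_ker, Submodule.coe_subtype]
      constructor
      · rintro ⟨y, hy, rfl⟩ i
        refine Fin.cases ?_ (fun j => ?_) i
        · exact y.2
        · exact hy j
      · intro h
        exact ⟨⟨x, h 0⟩, fun j => h j.succ, rfl⟩
    have hmK : finrank ℝ (⨅ j, LinearMap.ker (φ' j) : Submodule ℝ K) = m := by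
      rw [← hm, ← hmap]
      exact (Submodule.finrank_map_subtype_eq K _).symm
    have hmK' : m ≤ finrank ℝ K := by
      rw [← hmK]
      exact Submodule.finrank_le _
    have hsum : finrank ℝ K + finrank ℝ (Kᗮ : Submodule ℝ F) = finrank ℝ F :=
      K.finrank_add_finrank_orthogonal
    have hrk : finrank ℝ (Kᗮ : Submodule ℝ F) ≤ d := by
      have h1 := LinearMap.finrank_range_add_finrank_ker (φ 0)
      rw [← hK] at h1
      have h2 := hr 0
      omega
    obtain ⟨w', hw'⟩ : ∃ w', finrank ℝ K = w' + m := ⟨finrank ℝ K - m, by omega⟩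
    have ih' := ih K φ' (fun j x => hφ j.succ x)
      (fun j => le_trans (Submodule.finrank_mono (LinearMap.range_comp_le_range _ _))
        (hr j.succ)) w' hw' hmK
    set pv : F → (Kᗮ : Submodule ℝ F) := fun x => Kᗮ.orthogonalProjectionOnto x with hpv
    set pk : F → K := fun x => K.orthogonalProjectionOnto x with hpk
    have hdec : ∀ x : F, x = (pk x : F) + (pv x : F) := by
      intro x
      have := K.orthogonalDecomposition.symm_apply_apply x
      rw [Submodule.orthogonalDecomposition_apply,
        Submodule.orthogonalDecomposition_symm_apply] at this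
      exact this.symm
    have hnorm : ∀ x : F, ‖x‖ ^ 2 = ‖pk x‖ ^ 2 + ‖pv x‖ ^ 2 := by
      intro x
      have h1 := (K.orthogonalDecomposition).norm_map x
      rw [Submodule.orthogonalDecomposition_apply] at h1
      rw [← h1, WithLp.prod_norm_sq_eq_of_L2]
      rfl
    have hφv : ∀ x : F, φ 0 x = φ 0 (pv x : F) := by
      intro x
      have hk0 : φ 0 (pk x : F) = 0 := (pk x).2
      conv_lhs => rw [hdec x]
      rw [map_add, hk0, zero_add]
    -- the projections to `Kᗮ` are separated
    have hvsep : ∀ x ∈ X, ∀ y ∈ X, pv x ≠ pv y → 1 / c ≤ ‖pv x - pv y‖ := by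
      intro x hx y hy hne
      have hxy : x ≠ y := fun h => hne (by rw [h])
      have hsub : pv (x - y) = pv x - pv y := map_sub _ _ _
      rcases (hsep x hx y hy hxy).2 0 with h | h
      · exfalso
        apply hne
        have hmem : x - y ∈ K := h
        have h0 : pv (x - y) = 0 := by
          have h5 : pk (x - y) = ⟨x - y, hmem⟩ :=
            Submodule.orthogonalProjectionOnto_mem_subspace_eq_self (⟨x - y, hmem⟩ : K)
          have h6 := hdec (x - y)
          rw [h5] at h6
          apply Subtype.ext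
          have : (pv (x - y) : F) = 0 := by
            have h7 : (x - y) = (x - y) + (pv (x - y) : F) := h6
            exact left_eq_add.1 h7
          simpa using this
        rw [hsub, sub_eq_zero] at h0
        exact h0
      · rw [hφv, hsub] at h
        have h2 := hφ 0 ((pv x - pv y : (Kᗮ : Submodule ℝ F)) : F)
        rw [div_le_iff₀ hc]
        have h3 : ‖((pv x - pv y : (Kᗮ : Submodule ℝ F)) : F)‖ = ‖pv x - pv y‖ := rfl
        rw [h3] at h2
        linarith
    -- the fibres
    have hfib : ∀ v : (Kᗮ : Submodule ℝ F), ∀ (q' : ℕ) (t' : ℝ), t' ≤ T ^ 2 →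
        4 * c ^ 2 * t' < q' + 1 → t - ‖v‖ ^ 2 ≤ t' →
        (X.filter (fun x => pv x = v)).card ≤ (1 + w' * a) ^ q' * N := by
      intro v q' t' ht' hq' htv
      have hinj : Set.InjOn pk (X.filter (fun x => pv x = v) : Finset F) := by
        intro x hx y hy hxy
        rw [Finset.coe_filter] at hx hy
        rw [hdec x, hdec y, hx.2, hy.2, hxy]
      rw [← Finset.card_image_of_injOn hinj]
      apply ih' q' t' ht' hq'
      · intro y hy
        obtain ⟨x, hx, rfl⟩ := Finset.mem_image.1 hy
        rw [Finset.mem_filter] at hx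
        have h1 := hnorm x
        rw [hx.2] at h1
        have h2 := hX x hx.1
        linarith
      · intro y hy y' hy' hne
        obtain ⟨x, hx, rfl⟩ := Finset.mem_image.1 hy
        obtain ⟨x', hx', rfl⟩ := Finset.mem_image.1 hy'
        rw [Finset.mem_filter] at hx hx'
        have hxx : x ≠ x' := fun h => hne (by rw [h])
        have hcoe : ((pk x - pk x' : K) : F) = x - x' := by
          have h1 := hdec x
          have h2 := hdec x'
          rw [hx.2] at h1
          rw [hx'.2] at h2
          rw [Submodule.coe_sub]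
          conv_rhs => rw [h1, h2]
          abel
        have h3 := hsep x hx.1 x' hx'.1 hxx
        refine ⟨?_, fun j => ?_⟩
        · show 1 ≤ ‖((pk x - pk x' : K) : F)‖
          rw [hcoe]
          exact h3.1
        · show φ j.succ ((pk x - pk x' : K) : F) = 0 ∨ 1 ≤ ‖φ j.succ ((pk x - pk x' : K) : F)‖
          rw [hcoe]
          exact h3.2 j.succ
    set VV : Finset (Kᗮ : Submodule ℝ F) := X.image pv with hVV
    have hsumX : X.card = ∑ v ∈ VV, (X.filter (fun x => pv x = v)).card :=
      Finset.card_eq_sum_card_image pv X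
    have hVVsep : ∀ v ∈ VV, ∀ v' ∈ VV, v ≠ v' → 1 / c ≤ ‖v - v'‖ := by
      intro v hv v' hv' hne
      obtain ⟨x, hx, rfl⟩ := Finset.mem_image.1 hv
      obtain ⟨x', hx', rfl⟩ := Finset.mem_image.1 hv'
      exact hvsep x hx x' hx' hne
    have hVVn : ∀ v ∈ VV, ‖v‖ ^ 2 ≤ t := by
      intro v hv
      obtain ⟨x, hx, rfl⟩ := Finset.mem_image.1 hv
      have h1 := hnorm x
      have h2 := hX x hx
      have h3 : 0 ≤ ‖pk x‖ ^ 2 := by positivity
      linarith
    have hVVT : ∀ v ∈ VV, ‖v‖ ≤ T := fun v hv =>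
      (pow_le_pow_iff_left₀ (norm_nonneg _) hT two_ne_zero).1 ((hVVn v hv).trans ht)
    have hVVcard : VV.card ≤ a := by
      have h1 := packing hT (by positivity : 0 < 1 / c) VV hVVT hVVsep
      have h2 : (1 + 2 * T / (1 / c)) = 1 + 2 * c * T := by field_simp
      rw [h2] at h1
      have h3 : (1 + 2 * c * T) ^ finrank ℝ (Kᗮ : Submodule ℝ F) ≤ (1 + 2 * c * T) ^ d :=
        pow_le_pow_right₀ (by have : 0 ≤ 2 * c * T := by positivity
                              linarith) hrk
      exact_mod_cast h1.trans (h3.trans ha)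
    -- split into the small and the large values
    set VS := VV.filter (fun v => ‖v‖ < 1 / (2 * c)) with hVS
    set VL := VV.filter (fun v => ¬ ‖v‖ < 1 / (2 * c)) with hVL
    have hVScard : VS.card ≤ 1 := by
      rw [Finset.card_le_one]
      intro v hv v' hv'
      rw [hVS, Finset.mem_filter] at hv hv'
      by_contra hne
      have h1 := hVVsep v hv.1 v' hv'.1 hne
      have h2 := norm_sub_le v v'
      have h3 : 1 / (2 * c) + 1 / (2 * c) = 1 / c := by field_simp; norm_num
      linarith [hv.2, hv'.2]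
    have hsplit : X.card = ∑ v ∈ VS, (X.filter (fun x => pv x = v)).card +
        ∑ v ∈ VL, (X.filter (fun x => pv x = v)).card := by
      rw [hsumX, hVS, hVL, Finset.sum_filter_add_sum_filter_not]
    have hS : ∑ v ∈ VS, (X.filter (fun x => pv x = v)).card ≤ (1 + w' * a) ^ q * N := by
      calc ∑ v ∈ VS, (X.filter (fun x => pv x = v)).card
          ≤ ∑ _v ∈ VS, (1 + w' * a) ^ q * N :=
            Finset.sum_le_sum fun v _ => hfib v q t ht hq (by
              have : 0 ≤ ‖v‖ ^ 2 := by positivity
              linarith)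
        _ = VS.card * ((1 + w' * a) ^ q * N) := by rw [Finset.sum_const, smul_eq_mul]
        _ ≤ 1 * ((1 + w' * a) ^ q * N) := Nat.mul_le_mul_right _ hVScard
        _ = _ := one_mul _
    have hLn : ∀ v ∈ VL, 1 / (4 * c ^ 2) ≤ ‖v‖ ^ 2 := by
      intro v hv
      rw [hVL, Finset.mem_filter, not_lt] at hv
      have h1 := pow_le_pow_left₀ (by positivity) hv.2 2
      have h2 : (1 / (2 * c)) ^ 2 = 1 / (4 * c ^ 2) := by
        field_simp
        norm_num
      rwa [h2] at h1
    have hc2 : 0 < 4 * c ^ 2 := by positivity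
    rcases Nat.eq_zero_or_pos q with hq0 | hq0
    · -- no large values
      have hLe : VL = ∅ := by
        rw [Finset.eq_empty_iff_forall_notMem]
        intro v hv
        have h1 := hLn v hv
        have h2 : ‖v‖ ^ 2 ≤ t := hVVn v (Finset.mem_of_mem_filter v hv)
        rw [div_le_iff₀ hc2] at h1
        rw [hq0] at hq
        push_cast at hq
        nlinarith
      rw [hsplit, hLe, Finset.sum_empty, add_zero]
      rw [hq0, pow_zero, one_mul] at hS ⊢
      exact hS
    · obtain ⟨q', rfl⟩ : ∃ q', q = q' + 1 := ⟨q - 1, by omega⟩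
      have hL : ∑ v ∈ VL, (X.filter (fun x => pv x = v)).card ≤ a * ((1 + w' * a) ^ q' * N) := by
        calc ∑ v ∈ VL, (X.filter (fun x => pv x = v)).card
            ≤ ∑ _v ∈ VL, (1 + w' * a) ^ q' * N :=
              Finset.sum_le_sum fun v hv => hfib v q' (t - 1 / (4 * c ^ 2))
                (by have : 0 < 1 / (4 * c ^ 2) := by positivity
                    linarith)
                (by
                  have h1 : 4 * c ^ 2 * (t - 1 / (4 * c ^ 2)) = 4 * c ^ 2 * t - 1 := by
                    field_simp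
                  rw [h1]
                  push_cast at hq
                  linarith)
                (by have := hLn v hv
                    linarith)
          _ = VL.card * ((1 + w' * a) ^ q' * N) := by rw [Finset.sum_const, smul_eq_mul]
          _ ≤ a * ((1 + w' * a) ^ q' * N) :=
              Nat.mul_le_mul_right _ ((Finset.card_filter_le _ _).trans hVVcard)
      rcases Nat.eq_zero_or_pos (finrank ℝ (Kᗮ : Submodule ℝ F)) with hr0 | hr0
      · -- the map vanishes
        have hw0 : w = w' := by omega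
        have hLe : VL = ∅ := by
          rw [Finset.eq_empty_iff_forall_notMem]
          intro v hv
          have h1 := hLn v hv
          have hsubs : Subsingleton (Kᗮ : Submodule ℝ F) := Module.finrank_zero_iff.1 hr0
          have h2 : v = 0 := Subsingleton.elim _ _
          rw [h2, norm_zero] at h1
          have h3 : 0 < 1 / (4 * c ^ 2) := by positivity
          norm_num at h1
          have h4 := pow_pos hc 2
          linarith [inv_pos.2 h4]
        rw [hsplit, hLe, Finset.sum_empty, add_zero, hw0]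
        exact hS
      · have hww : w' + 1 ≤ w := by omega
        have h1 := rec_ineq w' a q'
        have h2 : (1 + (w' + 1) * a) ^ (q' + 1) ≤ (1 + w * a) ^ (q' + 1) :=
          Nat.pow_le_pow_left (by nlinarith) _
        calc X.card ≤ (1 + w' * a) ^ (q' + 1) * N + a * ((1 + w' * a) ^ q' * N) := by
              rw [hsplit]; exact add_le_add hS hL
          _ = ((1 + w' * a) ^ (q' + 1) + a * (1 + w' * a) ^ q') * N := by ring
          _ ≤ (1 + w * a) ^ (q' + 1) * N := Nat.mul_le_mul_right _ (h1.trans h2)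

end Pool.Agent.R117.HS
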