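import Pool.Agent.R117.HS.Main

/-!
Explicit form of the main inequality, and arbitrary families of endomorphisms.
-/

open MeasureTheory Module

namespace Pool.Agent.R117.HS

open Pool.Agent.H160R3.Herm

/-- The Hermite invariant of the lattice `A ℤⁿ`. -/
noncomputable def inv {n : ℕ} (A : Matrix (Fin n) (Fin n) ℝ) : ℝ :=
  minSq A / |A.det| ^ ((2 : ℝ) / (n : ℝ))

theorem inv_nonneg {n : ℕ} (A : Matrix (Fin n) (Fin n) ℝ) : 0 ≤ inv A :=
  div_nonneg (minSq_nonneg A) (Real.rpow_nonneg (abs_nonneg _) _)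

theorem inv_pow {n : ℕ} (hn : 0 < n) {A : Matrix (Fin n) (Fin n) ℝ} (hA : A.det ≠ 0) :
    inv A ^ n = (√(minSq A) ^ n / |A.det|) ^ 2 := by
  have hd : 0 < |A.det| := abs_pos.2 hA
  have hn' : (0 : ℝ) < n := by exact_mod_cast hn
  unfold inv
  rw [div_pow, div_pow, ← pow_mul, mul_comm n 2, pow_mul, Real.sq_sqrt (minSq_nonneg A)]
  congr 1
  rw [← Real.rpow_natCast, ← Real.rpow_mul hd.le]
  have : (2 : ℝ) / n * n = ((2 : ℕ) : ℝ) := by
    field_simp
    norm_num
  rw [this, Real.rpow_natCast]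

/-- the common kernel of a set of matrices -/
noncomputable def com {n : ℕ} (S : Set (Matrix (Fin n) (Fin n) ℝ)) : Submodule ℝ (Fin n → ℝ) :=
  ⨅ F ∈ S, LinearMap.ker (Matrix.toLin' F)

theorem mem_com {n : ℕ} {S : Set (Matrix (Fin n) (Fin n) ℝ)} {x : Fin n → ℝ} :
    x ∈ com S ↔ ∀ F ∈ S, F.mulVec x = 0 := by
  simp [com, Submodule.mem_iInf]

theorem exists_fin {n : ℕ} (S : Set (Matrix (Fin n) (Fin n) ℝ)) :
    ∃ (k : ℕ) (F : Fin k → Matrix (Fin n) (Fin n) ℝ), (∀ i, F i ∈ S) ∧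
      (⨅ i, LinearMap.ker (Matrix.toLin' (F i)) : Submodule ℝ (Fin n → ℝ)) = com S := by
  classical
  let P : ℕ → Prop := fun m => ∃ t : Finset (Matrix (Fin n) (Fin n) ℝ), (t : Set _) ⊆ S ∧
    finrank ℝ (com (t : Set (Matrix (Fin n) (Fin n) ℝ))) = m
  have hex : ∃ m, P m := ⟨_, ∅, by simp, rfl⟩
  obtain ⟨t, htS, ht⟩ := Nat.find_spec hex
  have hmin : ∀ m, P m → Nat.find hex ≤ m := fun m hm => Nat.find_min' hex hm
  have hle : com (t : Set (Matrix (Fin n) (Fin n) ℝ)) ≤ com S := by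
    intro x hx
    rw [mem_com]
    intro F hF
    have h1 : com ((insert F t : Finset _) : Set (Matrix (Fin n) (Fin n) ℝ)) ≤
        com (t : Set (Matrix (Fin n) (Fin n) ℝ)) := by
      intro y hy
      rw [mem_com] at hy ⊢
      exact fun G hG => hy G (by simp only [Finset.coe_insert, Set.mem_insert_iff]; exact Or.inr hG)
    have h2 : P (finrank ℝ (com ((insert F t : Finset _) : Set (Matrix (Fin n) (Fin n) ℝ)))) := by
      refine ⟨insert F t, ?_, rfl⟩
      intro G hG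
      simp only [Finset.coe_insert, Set.mem_insert_iff] at hG
      rcases hG with rfl | hG
      · exact hF
      · exact htS hG
    have h3 := hmin _ h2
    rw [← ht] at h3
    have h4 := Submodule.eq_of_le_of_finrank_le h1 h3
    rw [← h4, mem_com] at hx
    exact hx F (by simp)
  have hge : com S ≤ com (t : Set (Matrix (Fin n) (Fin n) ℝ)) := by
    intro x hx
    rw [mem_com] at hx ⊢
    exact fun F hF => hx F (htS hF)
  refine ⟨t.card, fun i => (t.equivFin.symm i : Matrix (Fin n) (Fin n) ℝ),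
    fun i => htS (t.equivFin.symm i).2, ?_⟩
  rw [← le_antisymm hle hge]
  ext x
  rw [mem_com]
  simp only [Submodule.mem_iInf, LinearMap.mem_ker, Matrix.toLin'_apply]
  constructor
  · intro h F hF
    have := h (t.equivFin ⟨F, hF⟩)
    simpa using this
  · intro h i
    exact h _ (t.equivFin.symm i).2

/-- The main inequality. -/
theorem main_set {n : ℕ} (hn : 0 < n) {A : Matrix (Fin n) (Fin n) ℝ} (hA : A.det ≠ 0) {c : ℝ}
    (hc : 0 < c) {d : ℕ} (hd : 0 < d) (S : Set (Matrix (Fin n) (Fin n) ℝ))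
    (hS : ∀ F ∈ S, Preserves A F ∧ F.rank ≤ d ∧
      ∀ x, ∑ j, (F.mulVec x) j ^ 2 ≤ c ^ 2 * ∑ j, x j ^ 2)
    (w m : ℕ) (hwm : n = w + m) (hm : finrank ℝ (com S) = m) :
    ((vr d / c) ^ w * om m) ^ 2 * inv A ^ n ≤ 4 ^ n := by
  obtain ⟨k, F, hF, hcom⟩ := exists_fin S
  have h := main_ineq hn hA hc hd F (fun i => (hS _ (hF i)).1) (fun i => (hS _ (hF i)).2.1)
    (fun i => (hS _ (hF i)).2.2) w m hwm (by rw [hcom]; exact hm)
  have hdet : 0 < |A.det| := abs_pos.2 hA
  have hv := vr_pos d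
  have ho := om_pos m
  rw [inv_pow hn hA, ← mul_pow, mul_div_assoc', show (4 : ℝ) ^ n = (2 ^ n) ^ 2 by
    rw [← pow_mul, mul_comm, pow_mul]; norm_num]
  apply pow_le_pow_left₀ (by positivity)
  rw [div_le_iff₀ hdet]
  exact h

theorem second_order {t : ℝ} (ht : 0 ≤ t) (n : ℕ) :
    1 + n * t + n * (n - 1) / 2 * t ^ 2 ≤ (1 + t) ^ n := by
  induction n with
  | zero => simp
  | succ k ih =>
    rw [pow_succ]
    have h1 := mul_le_mul_of_nonneg_right ih (by linarith : (0 : ℝ) ≤ 1 + t)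
    refine le_trans ?_ h1
    push_cast
    have hk : (0 : ℝ) ≤ (k : ℝ) * (k - 1) := by
      rcases Nat.eq_zero_or_pos k with h | h
      · simp [h]
      · have : (1 : ℝ) ≤ k := by exact_mod_cast h
        exact mul_nonneg (by linarith) (by linarith)
    have h3 : 0 ≤ (k : ℝ) * (k - 1) * t ^ 3 := by positivity
    nlinarith

theorem gamma_upper (n : ℕ) :
    Real.Gamma ((n : ℝ) / 2 + 1) ≤ √(((n : ℝ) + 3) / 4) ^ n := by
  induction n using Nat.twoStepInduction with
  | zero => simp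
  | one =>
    have h1 : Real.Gamma (((1 : ℕ) : ℝ) / 2 + 1) = √Real.pi / 2 := by
      rw [Nat.cast_one, Real.Gamma_add_one (by norm_num), Real.Gamma_one_half_eq]
      ring
    rw [h1, pow_one]
    have h2 : √Real.pi ≤ 2 := by
      rw [Real.sqrt_le_left (by norm_num)]
      linarith [Real.pi_lt_four]
    have h3 : √((((1 : ℕ) : ℝ) + 3) / 4) = 1 := by norm_num
    rw [h3]
    linarith
  | more n ih _ =>
    have hG : Real.Gamma (((n + 2 : ℕ) : ℝ) / 2 + 1)
        = ((n : ℝ) / 2 + 1) * Real.Gamma ((n : ℝ) / 2 + 1) := by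
      have : (((n + 2 : ℕ) : ℝ) / 2 + 1) = ((n : ℝ) / 2 + 1) + 1 := by push_cast; ring
      rw [this, Real.Gamma_add_one (by positivity)]
    rw [hG, pow_add, Real.sq_sqrt (by positivity)]
    have hn' : (0 : ℝ) ≤ n := by positivity
    set a : ℝ := ((n : ℝ) + 3) / 4 with ha
    have ha0 : 0 < a := by positivity
    have hb : (((n + 2 : ℕ) : ℝ) + 3) / 4 = a * (1 + 2 / (n + 3)) := by
      rw [ha]
      push_cast
      field_simp
      ring
    have hb' : a * (1 + 2 / (n + 3)) = ((n : ℝ) + 5) / 4 := by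
      rw [ha]
      field_simp
      ring
    rw [hb]
    have h1 : √(a * (1 + 2 / ((n : ℝ) + 3))) ^ n = √a ^ n * √(1 + 2 / ((n : ℝ) + 3)) ^ n := by
      rw [Real.sqrt_mul ha0.le, mul_pow]
    rw [h1, hb']
    set y : ℝ := √(1 + 2 / ((n : ℝ) + 3)) ^ n with hy
    have hy0 : 0 ≤ y := by positivity
    have hy2 : y ^ 2 = (1 + 2 / ((n : ℝ) + 3)) ^ n := by
      rw [hy, ← pow_mul, mul_comm, pow_mul, Real.sq_sqrt (by positivity)]
    have h2 := second_order (t := 2 / ((n : ℝ) + 3)) (by positivity) n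
    rw [← hy2] at h2
    have h3 : 2 * ((n : ℝ) + 2) / (n + 5) ≤ y := by
      apply le_of_sq_le_sq _ hy0
      refine le_trans ?_ h2
      rw [div_pow, div_le_iff₀ (by positivity)]
      have e : (1 + (n : ℝ) * (2 / (n + 3)) + n * (n - 1) / 2 * (2 / (n + 3)) ^ 2) =
          (5 * n ^ 2 + 10 * n + 9) / (n + 3) ^ 2 := by
        field_simp
        ring
      rw [e, div_mul_eq_mul_div, le_div_iff₀ (by positivity)]
      nlinarith [pow_nonneg hn' 2, pow_nonneg hn' 3, pow_nonneg hn' 4]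
    have h4 : (n : ℝ) / 2 + 1 ≤ y * ((n + 5) / 4) := by
      rw [div_le_iff₀ (by positivity)] at h3
      linarith
    calc ((n : ℝ) / 2 + 1) * Real.Gamma ((n : ℝ) / 2 + 1)
        ≤ ((n : ℝ) / 2 + 1) * √a ^ n := mul_le_mul_of_nonneg_left ih (by positivity)
      _ ≤ (y * ((n + 5) / 4)) * √a ^ n := mul_le_mul_of_nonneg_right h4 (by positivity)
      _ = _ := by ring

theorem om_lower (n : ℕ) : √(4 * Real.pi / (n + 3)) ^ n ≤ om n := by
  have hpi := Real.pi_pos
  have h1 := gamma_upper n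
  have h2 : √(4 * Real.pi / ((n : ℝ) + 3)) ^ n = √Real.pi ^ n / √(((n : ℝ) + 3) / 4) ^ n := by
    rw [← div_pow, ← Real.sqrt_div hpi.le]
    congr 2
    field_simp
  rw [h2]
  exact div_le_div_of_nonneg_left (by positivity) (gamma_pos n) h1

theorem vr_lower {d : ℕ} (hd : 0 < d) : √(4 * Real.pi / (d + 3)) ≤ vr d := by
  have hd' : (0 : ℝ) < d := by exact_mod_cast hd
  have h1 := om_lower d
  have h2 : √(4 * Real.pi / ((d : ℝ) + 3)) =
      (√(4 * Real.pi / (d + 3)) ^ d) ^ ((1 : ℝ) / d) := by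
    rw [← Real.rpow_natCast, ← Real.rpow_mul (Real.sqrt_nonneg _)]
    rw [mul_one_div_cancel hd'.ne', Real.rpow_one]
  rw [h2]
  exact Real.rpow_le_rpow (by positivity) h1 (by positivity)

/-- The explicit form. -/
theorem explicit {n : ℕ} (hn : 0 < n) {A : Matrix (Fin n) (Fin n) ℝ} (hA : A.det ≠ 0) {c : ℝ}
    (hc : 0 < c) {d : ℕ} (hd : 0 < d) (S : Set (Matrix (Fin n) (Fin n) ℝ))
    (hS : ∀ F ∈ S, Preserves A F ∧ F.rank ≤ d ∧
      ∀ x, ∑ j, (F.mulVec x) j ^ 2 ≤ c ^ 2 * ∑ j, x j ^ 2)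
    (w m : ℕ) (hwm : n = w + m) (hm : finrank ℝ (com S) = m) :
    (Real.pi * inv A / (n + 3)) ^ n ≤ (c ^ 2 * (d + 3) / (n + 3)) ^ w := by
  have h := main_set hn hA hc hd S hS w m hwm hm
  have hpi := Real.pi_pos
  have hg := inv_nonneg A
  have hv := vr_lower hd
  have ho := om_lower m
  have hd' : (0 : ℝ) < d := by exact_mod_cast hd
  have hmn : (m : ℝ) ≤ n := by exact_mod_cast (by omega : m ≤ n)
  have h1 : (4 * Real.pi / (c ^ 2 * (d + 3))) ^ w ≤ ((vr d / c) ^ w) ^ 2 := by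
    rw [← pow_mul, mul_comm w 2, pow_mul]
    apply pow_le_pow_left₀ (by positivity)
    rw [div_pow, div_le_div_iff₀ (by positivity) (by positivity)]
    have h2 : 4 * Real.pi / (d + 3) ≤ vr d ^ 2 := by
      have := pow_le_pow_left₀ (Real.sqrt_nonneg _) hv 2
      rwa [Real.sq_sqrt (by positivity)] at this
    rw [div_le_iff₀ (by positivity)] at h2
    nlinarith [pow_pos hc 2]
  have h2 : (4 * Real.pi / (n + 3)) ^ m ≤ om m ^ 2 := by
    have h3 := pow_le_pow_left₀ (by positivity) ho 2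
    rw [← pow_mul, mul_comm m 2, pow_mul, Real.sq_sqrt (by positivity)] at h3
    refine le_trans ?_ h3
    apply pow_le_pow_left₀ (by positivity)
    apply div_le_div_of_nonneg_left (by positivity) (by positivity) (by linarith)
  have h3 : (4 * Real.pi / (c ^ 2 * (d + 3))) ^ w * (4 * Real.pi / (n + 3)) ^ m * inv A ^ n ≤
      4 ^ n := by
    refine le_trans ?_ h
    rw [mul_pow]
    apply mul_le_mul_of_nonneg_right _ (by positivity)
    exact mul_le_mul h1 h2 (by positivity) (by positivity)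
  have e : (Real.pi * inv A / (n + 3)) ^ n =
      ((4 * Real.pi / (c ^ 2 * (d + 3))) ^ w * (4 * Real.pi / (n + 3)) ^ m * inv A ^ n) / 4 ^ n *
        (c ^ 2 * (d + 3) / (n + 3)) ^ w := by
    have e1 : ∀ x : ℝ, x ^ n = x ^ w * x ^ m := fun x => by rw [← pow_add, ← hwm]
    rw [e1 (Real.pi * inv A / (n + 3)), e1 (inv A), e1 4, div_pow, div_pow, div_pow, div_pow,
      div_pow, mul_pow, mul_pow, mul_pow, mul_pow, mul_pow]
    field_simp
  rw [e]
  have h4 : ((4 * Real.pi / (c ^ 2 * (d + 3))) ^ w * (4 * Real.pi / (n + 3)) ^ m * inv A ^ n) /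
      4 ^ n ≤ 1 := by
    rw [div_le_one (by positivity)]
    exact h3
  calc _ ≤ 1 * (c ^ 2 * ((d : ℝ) + 3) / (n + 3)) ^ w :=
        mul_le_mul_of_nonneg_right h4 (by positivity)
    _ = _ := one_mul _

end Pool.Agent.R117.HS
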