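import Pool.Agent.R117.HS.Count
import Pool.Agent.H818R2.Sph
import Pool.Agent.H818R2.KissDefs

/-!
Kissing numbers of configurations with isometries of small moved space.
-/

open MeasureTheory Module
open scoped InnerProductSpace

namespace Pool.Agent.R117.HS

open Pool.Agent.H818R2

/-- the common kernel of a set of linear maps -/
noncomputable def comL {F : Type} [NormedAddCommGroup F] [InnerProductSpace ℝ F]
    (S : Set (F →ₗ[ℝ] F)) : Submodule ℝ F :=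
  ⨅ φ ∈ S, LinearMap.ker φ

theorem mem_comL {F : Type} [NormedAddCommGroup F] [InnerProductSpace ℝ F]
    {S : Set (F →ₗ[ℝ] F)} {x : F} : x ∈ comL S ↔ ∀ φ ∈ S, φ x = 0 := by
  simp [comL, Submodule.mem_iInf]

theorem exists_finL {F : Type} [NormedAddCommGroup F] [InnerProductSpace ℝ F]
    [FiniteDimensional ℝ F] (S : Set (F →ₗ[ℝ] F)) :
    ∃ (k : ℕ) (f : Fin k → F →ₗ[ℝ] F), (∀ i, f i ∈ S) ∧
      (⨅ i, LinearMap.ker (f i) : Submodule ℝ F) = comL S := by
  classical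
  let P : ℕ → Prop := fun m => ∃ t : Finset (F →ₗ[ℝ] F), (t : Set _) ⊆ S ∧
    finrank ℝ (comL (t : Set (F →ₗ[ℝ] F))) = m
  have hex : ∃ m, P m := ⟨_, ∅, by simp, rfl⟩
  obtain ⟨t, htS, ht⟩ := Nat.find_spec hex
  have hmin : ∀ m, P m → Nat.find hex ≤ m := fun m hm => Nat.find_min' hex hm
  have hle : comL (t : Set (F →ₗ[ℝ] F)) ≤ comL S := by
    intro x hx
    rw [mem_comL]
    intro φ hφ
    have h1 : comL ((insert φ t : Finset _) : Set (F →ₗ[ℝ] F)) ≤
        comL (t : Set (F →ₗ[ℝ] F)) := by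
      intro y hy
      rw [mem_comL] at hy ⊢
      exact fun G hG => hy G (by simp only [Finset.coe_insert, Set.mem_insert_iff]; exact Or.inr hG)
    have h2 : P (finrank ℝ (comL ((insert φ t : Finset _) : Set (F →ₗ[ℝ] F)))) := by
      refine ⟨insert φ t, ?_, rfl⟩
      intro G hG
      simp only [Finset.coe_insert, Set.mem_insert_iff] at hG
      rcases hG with rfl | hG
      · exact hφ
      · exact htS hG
    have h3 := hmin _ h2
    rw [← ht] at h3
    have h4 := Submodule.eq_of_le_of_finrank_le h1 h3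
    rw [← h4, mem_comL] at hx
    exact hx φ (by simp)
  have hge : comL S ≤ comL (t : Set (F →ₗ[ℝ] F)) := by
    intro x hx
    rw [mem_comL] at hx ⊢
    exact fun φ hφ => hx φ (htS hφ)
  refine ⟨t.card, fun i => (t.equivFin.symm i : F →ₗ[ℝ] F), fun i => htS (t.equivFin.symm i).2, ?_⟩
  rw [← le_antisymm hle hge]
  ext x
  rw [mem_comL]
  simp only [Submodule.mem_iInf, LinearMap.mem_ker]
  constructor
  · intro h φ hφ
    have := h (t.equivFin ⟨φ, hφ⟩)
    simpa using this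
  · intro h i
    exact h _ (t.equivFin.symm i).2

/-- points of the closed unit ball with mutual distances at least one -/
theorem ball_count {m : ℕ} (Y : Finset (EuclideanSpace ℝ (Fin m))) (hY : ∀ y ∈ Y, ‖y‖ ≤ 1)
    (hsep : ∀ y ∈ Y, ∀ y' ∈ Y, y ≠ y' → 1 ≤ ‖y - y'‖) : Y.card ≤ kissing m + 1 := by
  classical
  rcases Nat.eq_zero_or_pos m with rfl | hm
  · have : Y.card ≤ 1 := by
      rw [Finset.card_le_one]
      intro a _ b _
      exact Subsingleton.elim a b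
    omega
  have hne : NeZero m := ⟨hm.ne'⟩
  set Z := Y.erase 0 with hZ
  have hcard : Y.card ≤ Z.card + 1 := by
    rw [hZ]
    have := Finset.pred_card_le_card_erase (s := Y) (a := (0 : EuclideanSpace ℝ (Fin m)))
    omega
  have hZ1 : ∀ y ∈ Z, y ≠ 0 ∧ y ∈ Y := fun y hy => by
    rw [hZ, Finset.mem_erase] at hy
    exact hy
  set nr : EuclideanSpace ℝ (Fin m) → EuclideanSpace ℝ (Fin m) := fun y => ‖y‖⁻¹ • y with hnr
  have hin : ∀ y ∈ Z, ∀ y' ∈ Z, y ≠ y' → ⟪nr y, nr y'⟫_ℝ ≤ 1 / 2 := by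
    intro y hy y' hy' hyy
    have h0 := norm_pos_iff.2 (hZ1 y hy).1
    have h0' := norm_pos_iff.2 (hZ1 y' hy').1
    have h1 := hY y (hZ1 y hy).2
    have h1' := hY y' (hZ1 y' hy').2
    have h2 := hsep y (hZ1 y hy).2 y' (hZ1 y' hy').2 hyy
    have h3 : ‖y - y'‖ ^ 2 = ‖y‖ ^ 2 - 2 * ⟪y, y'⟫_ℝ + ‖y'‖ ^ 2 := norm_sub_sq_real y y'
    have h4 : 1 ≤ ‖y - y'‖ ^ 2 := one_le_pow₀ h2
    rw [hnr]
    simp only [inner_smul_left, inner_smul_right, map_inv₀, conj_trivial]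
    set p := ⟪y, y'⟫_ℝ
    have h6 : ‖y'‖⁻¹ * (‖y‖⁻¹ * p) = p / (‖y‖ * ‖y'‖) := by
      field_simp
    have h7 : p / (‖y‖ * ‖y'‖) ≤ 1 / 2 := by
      rw [div_le_div_iff₀ (by positivity) (by norm_num)]
      rcases le_total ‖y‖ ‖y'‖ with h | h
      · nlinarith
      · nlinarith
    rw [h6]
    exact h7
  have hcode : IsSphCode m (Real.pi / 3) (Z.image nr) := by
    constructor
    · intro x hx
      obtain ⟨y, hy, rfl⟩ := Finset.mem_image.1 hx
      have h0 := norm_pos_iff.2 (hZ1 y hy).1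
      rw [hnr]
      simp only [norm_smul, norm_inv, norm_norm]
      exact inv_mul_cancel₀ h0.ne'
    · intro x hx x' hx' hxx
      obtain ⟨y, hy, rfl⟩ := Finset.mem_image.1 hx
      obtain ⟨y', hy', rfl⟩ := Finset.mem_image.1 hx'
      rw [Real.cos_pi_div_three]
      exact hin y hy y' hy' (fun h => hxx (by rw [h]))
  have hinj : Set.InjOn nr (Z : Set _) := by
    intro y hy y' hy' hyy
    by_contra hne
    have h1 := hin y hy y' hy' hne
    rw [← hyy] at h1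
    have h0 := norm_pos_iff.2 (hZ1 y hy).1
    have h2 : ‖nr y‖ = 1 := by
      rw [hnr]
      simp only [norm_smul, norm_inv, norm_norm]
      exact inv_mul_cancel₀ h0.ne'
    rw [real_inner_self_eq_norm_sq, h2] at h1
    norm_num at h1
  have hs : 0 < Real.sin (Real.pi / 3 / 2) := by
    apply Real.sin_pos_of_pos_of_lt_pi
    · positivity
    · have := Real.pi_pos
      linarith
  have h1 := le_sphMax hs hcode
  rw [Finset.card_image_of_injOn hinj] at h1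
  exact hcard.trans (Nat.add_le_add_right h1 1)

/-- the counting theorem for sets of linear maps -/
theorem count_set {n : ℕ} {c T : ℝ} (hc : 0 < c) (hT : 0 ≤ T) (d N : ℕ)
    (S : Set (EuclideanSpace ℝ (Fin n) →ₗ[ℝ] EuclideanSpace ℝ (Fin n)))
    (hS : ∀ φ ∈ S, finrank ℝ (LinearMap.range φ) ≤ d ∧ ∀ x, ‖φ x‖ ≤ c * ‖x‖)
    (hN : ∀ Y : Finset (EuclideanSpace ℝ (Fin (finrank ℝ (comL S)))), (∀ y ∈ Y, ‖y‖ ≤ T) →
      (∀ y ∈ Y, ∀ y' ∈ Y, y ≠ y' → 1 ≤ ‖y - y'‖) → Y.card ≤ N)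
    (X : Finset (EuclideanSpace ℝ (Fin n))) (hX : ∀ x ∈ X, ‖x‖ ≤ T)
    (hsep : ∀ x ∈ X, ∀ y ∈ X, x ≠ y → 1 ≤ ‖x - y‖ ∧ ∀ φ ∈ S, φ (x - y) = 0 ∨ 1 ≤ ‖φ (x - y)‖) :
    X.card ≤ (1 + (n - finrank ℝ (comL S)) * ⌈(1 + 2 * c * T) ^ d⌉₊) ^ ⌊4 * c ^ 2 * T ^ 2⌋₊ * N := by
  obtain ⟨k, f, hf, hcom⟩ := exists_finL S
  have hle : finrank ℝ (comL S) ≤ n := by
    have := (comL S).finrank_le
    rwa [finrank_euclideanSpace_fin] at this
  exact count hc hT (Nat.le_ceil _) (EuclideanSpace ℝ (Fin n)) hN k (EuclideanSpace ℝ (Fin n)) f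
    (fun i => (hS _ (hf i)).2) (fun i => (hS _ (hf i)).1) (n - finrank ℝ (comL S))
    (by rw [finrank_euclideanSpace_fin]; omega) (by rw [hcom]) _ (T ^ 2) le_rfl
    (Nat.lt_floor_add_one _) X
    (fun x hx => pow_le_pow_left₀ (norm_nonneg _) (hX x hx) 2)
    (fun x hx y hy hxy => ⟨(hsep x hx y hy hxy).1, fun i => (hsep x hx y hy hxy).2 _ (hf i)⟩)

end Pool.Agent.R117.HS
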