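import Pool.Agent.R117.HS.Kiss
import Pool.Agent.TH856.KL.Asym

/-!
Kissing configurations with isometries of small moved space: consequences.
-/

open MeasureTheory Module Filter
open scoped InnerProductSpace Topology

namespace Pool.Agent.R117.HS

open Pool.Agent.H818R2 Pool.Agent.H161R2.KissSym

/-- the linear map `g - 1` -/
noncomputable def dif {n : ℕ} (g : Isom n) : E n →ₗ[ℝ] E n :=
  (g.toLinearEquiv : E n →ₗ[ℝ] E n) - LinearMap.id

theorem dif_apply {n : ℕ} (g : Isom n) (x : E n) : dif g x = g x - x := rfl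

/-- the vectors which are fixed by all `g ∈ G` -/
noncomputable def fixSp {n : ℕ} (G : Set (Isom n)) : Submodule ℝ (E n) :=
  ⨅ g ∈ G, LinearMap.ker (dif g)

theorem mem_fixSp {n : ℕ} {G : Set (Isom n)} {x : E n} : x ∈ fixSp G ↔ ∀ g ∈ G, g x = x := by
  simp only [fixSp, Submodule.mem_iInf, LinearMap.mem_ker, dif_apply, sub_eq_zero]

theorem comL_image {n : ℕ} (G : Set (Isom n)) : comL (dif '' G) = fixSp G := by
  ext x
  rw [mem_comL, mem_fixSp]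
  constructor
  · intro h g hg
    have := h (dif g) ⟨g, hg, rfl⟩
    rwa [dif_apply, sub_eq_zero] at this
  · rintro h _ ⟨g, hg, rfl⟩
    rw [dif_apply, sub_eq_zero]
    exact h g hg

theorem rank_dif {n : ℕ} (g : Isom n) : finrank ℝ (LinearMap.range (dif g)) = mdim g := by
  have h1 := LinearMap.finrank_range_add_finrank_ker (dif g)
  have h2 : finrank ℝ (LinearMap.ker (dif g)) + mdim g = finrank ℝ (E n) := by
    unfold mdim moved
    exact (LinearMap.ker (dif g)).finrank_add_finrank_orthogonal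
  omega

theorem norm_dif {n : ℕ} (g : Isom n) (x : E n) : ‖dif g x‖ ≤ 2 * ‖x‖ := by
  rw [dif_apply]
  calc ‖g x - x‖ ≤ ‖g x‖ + ‖x‖ := norm_sub_le _ _
    _ = 2 * ‖x‖ := by rw [g.norm_map]; ring

theorem fix_le {n : ℕ} (G : Set (Isom n)) : finrank ℝ (fixSp G) ≤ n := by
  have := (fixSp G).finrank_le
  rwa [finrank_euclideanSpace_fin] at this

/-- the counting theorem for isometries -/
theorem count_isom {n : ℕ} {T : ℝ} (hT : 0 ≤ T) (d N : ℕ) (G : Set (Isom n))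
    (hG : ∀ g ∈ G, mdim g ≤ d)
    (hN : ∀ Y : Finset (E (finrank ℝ (fixSp G))), (∀ y ∈ Y, ‖y‖ ≤ T) →
      (∀ y ∈ Y, ∀ y' ∈ Y, y ≠ y' → 1 ≤ ‖y - y'‖) → Y.card ≤ N)
    (X : Finset (E n)) (hX : ∀ x ∈ X, ‖x‖ ≤ T)
    (hsep : ∀ x ∈ X, ∀ y ∈ X, x ≠ y → 1 ≤ ‖x - y‖ ∧
      ∀ g ∈ G, g (x - y) = x - y ∨ 1 ≤ ‖g (x - y) - (x - y)‖) :
    X.card ≤ (1 + (n - finrank ℝ (fixSp G)) * ⌈(1 + 4 * T) ^ d⌉₊) ^ ⌊16 * T ^ 2⌋₊ * N := by
  have h1 := count_set (c := 2) two_pos hT d N (dif '' G)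
    (by
      rintro _ ⟨g, hg, rfl⟩
      exact ⟨(rank_dif g).trans_le (hG g hg), norm_dif g⟩)
    (by rw [comL_image]; exact hN) X hX
    (fun x hx y hy hxy => ⟨(hsep x hx y hy hxy).1, by
      rintro _ ⟨g, hg, rfl⟩
      rw [dif_apply, sub_eq_zero]
      exact (hsep x hx y hy hxy).2 g hg⟩)
  rw [comL_image] at h1
  have e1 : (1 : ℝ) + 2 * 2 * T = 1 + 4 * T := by ring
  have e2 : (4 : ℝ) * 2 ^ 2 * T ^ 2 = 16 * T ^ 2 := by ring
  rw [e1, e2] at h1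
  exact h1

theorem count_unit {n : ℕ} (d N : ℕ) (G : Set (Isom n)) (hG : ∀ g ∈ G, mdim g ≤ d)
    (hN : ∀ Y : Finset (E (finrank ℝ (fixSp G))), (∀ y ∈ Y, ‖y‖ ≤ 1) →
      (∀ y ∈ Y, ∀ y' ∈ Y, y ≠ y' → 1 ≤ ‖y - y'‖) → Y.card ≤ N)
    (X : Finset (E n)) (hX : ∀ x ∈ X, ‖x‖ ≤ 1)
    (hsep : ∀ x ∈ X, ∀ y ∈ X, x ≠ y → 1 ≤ ‖x - y‖ ∧
      ∀ g ∈ G, g (x - y) = x - y ∨ 1 ≤ ‖g (x - y) - (x - y)‖) :
    X.card ≤ (1 + (n - finrank ℝ (fixSp G)) * 5 ^ d) ^ 16 * N := by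
  have h1 := count_isom zero_le_one d N G hG hN X hX hsep
  have e1 : ⌈((1 : ℝ) + 4 * 1) ^ d⌉₊ = 5 ^ d := by
    have : ((1 : ℝ) + 4 * 1) ^ d = ((5 ^ d : ℕ) : ℝ) := by push_cast; norm_num
    rw [this, Nat.ceil_natCast]
  have e2 : ⌊(16 : ℝ) * 1 ^ 2⌋₊ = 16 := by
    have : (16 : ℝ) * 1 ^ 2 = ((16 : ℕ) : ℝ) := by norm_num
    rw [this, Nat.floor_natCast]
  rw [e1, e2] at h1
  exact h1

/-- the fixed space of a set of isometries closed under conjugation by an irreducible group -/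
theorem fix_irred {n : ℕ} (G : Subgroup (Isom n)) (C : Set (Isom n)) (hC : ∃ g ∈ C, g ≠ 1)
    (hconj : ∀ g ∈ C, ∀ h ∈ G, h * g * h⁻¹ ∈ C)
    (hirr : ∀ W : Submodule ℝ (E n), (∀ h ∈ G, ∀ x ∈ W, h x ∈ W) → W = ⊥ ∨ W = ⊤) :
    fixSp C = ⊥ := by
  rcases hirr (fixSp C) (by
    intro h hh x hx
    rw [mem_fixSp] at hx ⊢
    intro g hg
    have h1 := hx _ (hconj g hg h⁻¹ (G.inv_mem hh))
    have h2 : (h⁻¹ * g * h⁻¹⁻¹) x = h⁻¹ (g (h x)) := by
      rw [inv_inv]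
      rfl
    rw [h2] at h1
    have h3 : h (h⁻¹ (g (h x))) = h x := by rw [h1]
    have h4 : h (h⁻¹ (g (h x))) = g (h x) := by
      change (h * h⁻¹) (g (h x)) = g (h x)
      rw [mul_inv_cancel]
      rfl
    rw [← h4, h3]) with h | h
  · exact h
  · exfalso
    obtain ⟨g, hg, hne⟩ := hC
    apply hne
    ext1 x
    have hx : x ∈ fixSp C := by rw [h]; trivial
    exact mem_fixSp.1 hx g hg

theorem mdim_conj {n : ℕ} (g h : Isom n) : mdim (h * g * h⁻¹) = mdim g := by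
  rw [← rank_dif, ← rank_dif]
  have h1 : dif (h * g * h⁻¹) = (h.toLinearEquiv : E n →ₗ[ℝ] E n).comp
      ((dif g).comp (h⁻¹.toLinearEquiv : E n →ₗ[ℝ] E n)) := by
    ext1 x
    simp only [LinearMap.comp_apply, dif_apply]
    have h2 : (h * g * h⁻¹) x = h (g (h⁻¹ x)) := rfl
    have h3 : h (h⁻¹ x) = x := by
      change (h * h⁻¹) x = x
      rw [mul_inv_cancel]
      rfl
    change (h * g * h⁻¹) x - x = h (dif g (h⁻¹ x))
    rw [dif_apply, map_sub, h2, h3]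
  have h2 : LinearMap.range (dif (h * g * h⁻¹)) =
      (LinearMap.range (dif g)).map (h.toLinearEquiv : E n →ₗ[ℝ] E n) := by
    rw [h1, LinearMap.range_comp]
    congr 1
    rw [LinearMap.range_comp]
    have h3 : LinearMap.range (h⁻¹.toLinearEquiv : E n →ₗ[ℝ] E n) = ⊤ :=
      LinearEquiv.range h⁻¹.toLinearEquiv
    rw [h3, Submodule.map_top]
  rw [h2]
  exact LinearEquiv.finrank_map_eq h.toLinearEquiv (LinearMap.range (dif g))

end Pool.Agent.R117.HS
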