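import Pool.Agent.R117.HS.Body
import Pool.Agent.H160R3.Herm.Upper

/-!
Minkowski's theorem for the bodies adapted to endomorphisms of small rank of a lattice.
-/

open MeasureTheory Module

namespace Pool.Agent.R117.HS

open Pool.Agent.H160R3.Herm

/-- The linear map `x ↦ F x` maps the lattice `A ℤⁿ` into itself. -/
def Preserves {n : ℕ} (A F : Matrix (Fin n) (Fin n) ℝ) : Prop :=
  ∃ U : Matrix (Fin n) (Fin n) ℤ, F * A = A * U.map (fun z : ℤ => (z : ℝ))

/-- the linear map of Euclidean space with matrix `F` -/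
noncomputable def eu {n : ℕ} (F : Matrix (Fin n) (Fin n) ℝ) :
    EuclideanSpace ℝ (Fin n) →ₗ[ℝ] EuclideanSpace ℝ (Fin n) :=
  ((WithLp.linearEquiv 2 ℝ (Fin n → ℝ)).symm.toLinearMap).comp
    ((Matrix.toLin' F).comp (WithLp.linearEquiv 2 ℝ (Fin n → ℝ)).toLinearMap)

theorem eu_apply {n : ℕ} (F : Matrix (Fin n) (Fin n) ℝ) (x : EuclideanSpace ℝ (Fin n)) :
    eu F x = WithLp.toLp 2 (F.mulVec x.ofLp) := rfl

theorem norm_toLp_sq {n : ℕ} (x : Fin n → ℝ) :
    ‖(WithLp.toLp 2 x : EuclideanSpace ℝ (Fin n))‖ ^ 2 = ∑ j, x j ^ 2 := by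
  rw [EuclideanSpace.norm_sq_eq]
  simp

theorem finrank_range_eu {n : ℕ} (F : Matrix (Fin n) (Fin n) ℝ) :
    finrank ℝ (LinearMap.range (eu F)) = F.rank := by
  have h1 : LinearMap.range (eu F) = (LinearMap.range (Matrix.toLin' F)).map
      (WithLp.linearEquiv 2 ℝ (Fin n → ℝ)).symm.toLinearMap := by
    unfold eu
    rw [LinearMap.range_comp, LinearMap.range_comp]
    congr 2
    rw [LinearEquiv.range, Submodule.map_top]
  rw [h1, LinearEquiv.finrank_map_eq]
  rfl

theorem finrank_ker_eu {n k : ℕ} (F : Fin k → Matrix (Fin n) (Fin n) ℝ) :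
    finrank ℝ (⨅ i, LinearMap.ker (eu (F i)) : Submodule ℝ (EuclideanSpace ℝ (Fin n))) =
      finrank ℝ (⨅ i, LinearMap.ker (Matrix.toLin' (F i)) : Submodule ℝ (Fin n → ℝ)) := by
  have h1 : (⨅ i, LinearMap.ker (eu (F i)) : Submodule ℝ (EuclideanSpace ℝ (Fin n))) =
      (⨅ i, LinearMap.ker (Matrix.toLin' (F i)) : Submodule ℝ (Fin n → ℝ)).map
      (WithLp.linearEquiv 2 ℝ (Fin n → ℝ)).symm.toLinearMap := by
    ext x
    simp only [Submodule.mem_iInf, LinearMap.mem_ker, Submodule.mem_map]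
    constructor
    · intro h
      refine ⟨x.ofLp, fun i => ?_, rfl⟩
      have := h i
      rw [eu_apply] at this
      have h2 := congrArg (fun y : EuclideanSpace ℝ (Fin n) => y.ofLp) this
      exact h2
    · rintro ⟨y, hy, rfl⟩ i
      rw [eu_apply]
      have h2 := hy i
      rw [Matrix.toLin'_apply] at h2
      show WithLp.toLp 2 ((F i).mulVec y) = 0
      rw [h2]
      rfl
  rw [h1, LinearEquiv.finrank_map_eq]

/-- the lattice vectors -/
theorem preserves_mulVec {n : ℕ} {A F : Matrix (Fin n) (Fin n) ℝ} (h : Preserves A F)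
    (w : Fin n → ℤ) : ∃ w' : Fin n → ℤ,
      F.mulVec (A.mulVec (fun j => (w j : ℝ))) = A.mulVec (fun j => (w' j : ℝ)) := by
  obtain ⟨U, hU⟩ := h
  refine ⟨U.mulVec w, ?_⟩
  rw [Matrix.mulVec_mulVec, hU, ← Matrix.mulVec_mulVec]
  congr 1
  ext i
  simp [Matrix.mulVec, dotProduct]

theorem sqrt_minSq_le {n : ℕ} (A : Matrix (Fin n) (Fin n) ℝ) (w : Fin n → ℤ) (hw : w ≠ 0) :
    √(minSq A) ≤ ‖(WithLp.toLp 2 (A.mulVec (fun j => (w j : ℝ))) : EuclideanSpace ℝ (Fin n))‖ := by
  rw [Real.sqrt_le_left (norm_nonneg _), norm_toLp_sq]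
  exact minSq_le A w hw

/-- The main inequality, for finite families of endomorphisms. -/
theorem main_ineq {n : ℕ} (hn : 0 < n) {A : Matrix (Fin n) (Fin n) ℝ} (hA : A.det ≠ 0) {c : ℝ}
    (hc : 0 < c) {d : ℕ} (hd : 0 < d) {k : ℕ} (F : Fin k → Matrix (Fin n) (Fin n) ℝ)
    (hF : ∀ i, Preserves A (F i)) (hr : ∀ i, (F i).rank ≤ d)
    (hb : ∀ i x, ∑ j, ((F i).mulVec x) j ^ 2 ≤ c ^ 2 * ∑ j, x j ^ 2)
    (w m : ℕ) (hwm : n = w + m)
    (hm : finrank ℝ (⨅ i, LinearMap.ker (Matrix.toLin' (F i)) : Submodule ℝ (Fin n → ℝ)) = m) :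
    (vr d / c) ^ w * om m * √(minSq A) ^ n ≤ 2 ^ n * |A.det| := by
  have hdet0 : 0 < |A.det| := abs_pos.2 hA
  rcases eq_or_lt_of_le (Real.sqrt_nonneg (minSq A)) with h0 | hμ
  · rw [← h0, zero_pow hn.ne', mul_zero]
    positivity
  set μ : ℝ := √(minSq A) with hμd
  by_contra hcon
  push Not at hcon
  obtain ⟨D, hD1, hD2, hD3, hD4, hD5⟩ := exists_body hc hμ hd (EuclideanSpace ℝ (Fin n)) k
    (EuclideanSpace ℝ (Fin n)) (fun i => eu (F i))
    (by
      intro i x
      have h1 := hb i x.ofLp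
      have h2 : ‖eu (F i) x‖ ^ 2 ≤ (c * ‖x‖) ^ 2 := by
        rw [eu_apply, norm_toLp_sq, mul_pow]
        have h3 : ‖x‖ ^ 2 = ∑ j, x.ofLp j ^ 2 := norm_toLp_sq x.ofLp
        rw [h3]
        exact h1
      exact (pow_le_pow_iff_left₀ (norm_nonneg _) (by positivity) two_ne_zero).1 h2)
    (fun i => by rw [finrank_range_eu]; exact hr i) w m
    (by rw [finrank_euclideanSpace_fin]; exact hwm) (by rw [finrank_ker_eu]; exact hm)
  have hne : Nonempty (Fin n) := ⟨⟨0, hn⟩⟩
  set b := Pi.basisFun ℝ (Fin n) with hb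
  set L : AddSubgroup (Fin n → ℝ) := (Submodule.span ℤ (Set.range b)).toAddSubgroup with hL
  have fund : IsAddFundamentalDomain L (ZSpan.fundamentalDomain b) volume :=
    ZSpan.isAddFundamentalDomain' b volume
  have hvol : volume (ZSpan.fundamentalDomain b) = 1 := by
    rw [ZSpan.volume_fundamentalDomain]
    have : (Matrix.of b) = (1 : Matrix (Fin n) (Fin n) ℝ) := by
      ext i j
      simp [hb, Matrix.one_apply, Pi.single_apply, eq_comm]
    rw [this]
    simp
  have hcount : Countable L :=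
    inferInstanceAs (Countable (Submodule.span ℤ (Set.range b)))
  set s : Set (Fin n → ℝ) := (Matrix.toLin' A) ⁻¹' ((fun x : Fin n → ℝ =>
    (WithLp.toLp 2 x : EuclideanSpace ℝ (Fin n))) ⁻¹' D) with hs
  have hvs : volume s = ENNReal.ofReal |A.det|⁻¹ * volume D := by
    have h1 : LinearMap.det (Matrix.toLin' A) ≠ 0 := by rw [LinearMap.det_toLin']; exact hA
    rw [hs, Measure.addHaar_preimage_linearMap volume h1, LinearMap.det_toLin', abs_inv]
    congr 1
    exact (PiLp.volume_preserving_toLp (Fin n)).measure_preimage hD3.nullMeasurableSet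
  have hlt : volume (ZSpan.fundamentalDomain b) * 2 ^ (Module.finrank ℝ (Fin n → ℝ)) <
      volume s := by
    rw [hvol, one_mul, hvs, Module.finrank_fin_fun]
    have h2 : (2 : ENNReal) ^ n = ENNReal.ofReal (2 ^ n) := by
      rw [ENNReal.ofReal_pow (by norm_num)]; simp
    have h3 : (vr d / c) ^ w * om m * μ ^ n = (vr d * (μ / c)) ^ w * (om m * μ ^ m) := by
      rw [hwm, pow_add, div_pow, mul_pow, div_pow]
      ring
    rw [h3] at hcon
    refine lt_of_lt_of_le ?_ (mul_le_mul' le_rfl hD4)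
    rw [← ENNReal.ofReal_mul (by positivity), h2]
    rw [ENNReal.ofReal_lt_ofReal_iff_of_nonneg (by positivity), inv_mul_eq_div,
      lt_div_iff₀ hdet0]
    exact hcon
  obtain ⟨x, hx0, hx⟩ := exists_ne_zero_mem_lattice_of_measure_mul_two_pow_lt_measure
    (s := s) fund
    (by
      intro y hy
      show (WithLp.toLp 2 (Matrix.toLin' A (-y)) : EuclideanSpace ℝ (Fin n)) ∈ D
      rw [map_neg]
      exact hD1 _ hy)
    (by
      have h1 := hD2.linear_preimage (((WithLp.linearEquiv 2 ℝ (Fin n → ℝ)).symm.toLinearMap).comp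
        (Matrix.toLin' A))
      exact h1)
    hlt
  have hxL : (x : Fin n → ℝ) ∈ Submodule.span ℤ (Set.range b) := x.2
  rw [b.mem_span_iff_repr_mem ℤ] at hxL
  choose v hv using hxL
  have hxv : (x : Fin n → ℝ) = fun j => (v j : ℝ) := by
    ext j
    have := hv j
    simp [hb] at this
    exact this.symm
  have hv0 : v ≠ 0 := by
    rintro rfl
    apply hx0
    apply Subtype.ext
    rw [hxv]
    ext j
    simp
  have hxD : (WithLp.toLp 2 (A.mulVec (fun j => (v j : ℝ))) : EuclideanSpace ℝ (Fin n)) ∈ D := by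
    rw [← hxv]
    exact hx
  have h6 := hD5 _ hxD
    (by
      intro i
      obtain ⟨v', hv'⟩ := preserves_mulVec (hF i) v
      rw [eu_apply]
      show (WithLp.toLp 2 ((F i).mulVec (A.mulVec (fun j => (v j : ℝ)))) :
        EuclideanSpace ℝ (Fin n)) = 0 ∨ _
      rw [hv']
      by_cases hz : v' = 0
      · left
        rw [hz]
        have : (fun j : Fin n => (((0 : Fin n → ℤ) j : ℤ) : ℝ)) = 0 := by ext; simp
        rw [this, Matrix.mulVec_zero]
        rfl
      · right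
        exact sqrt_minSq_le A v' hz)
    (fun _ => sqrt_minSq_le A v hv0)
  have h7 : A.mulVec (fun j => (v j : ℝ)) = 0 := by
    have := congrArg (fun y : EuclideanSpace ℝ (Fin n) => y.ofLp) h6
    exact this
  have h8 := Matrix.eq_zero_of_mulVec_eq_zero hA h7
  apply hv0
  ext j
  have := congrFun h8 j
  simpa using this

end Pool.Agent.R117.HS
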